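import Mathlib

set_option autoImplicit false

namespace H84.Sing

open Finset Real

/-- counting distinct pairs of positive integers with bounded coordinate sums -/
theorem pairs_count (T : Finset (ℕ × ℕ)) (X Y : ℝ) (hX : 0 < X) (hY : 0 < Y)
    (hpos : ∀ p ∈ T, 1 ≤ p.1 ∧ 1 ≤ p.2)
    (h1 : ∑ p ∈ T, (p.1 : ℝ) ≤ X) (h2 : ∑ p ∈ T, (p.2 : ℝ) ≤ Y) :
    (T.card : ℝ) ≤ 3 * (X * Y) ^ ((1 : ℝ) / 3) := by
  classical
  set c : ℝ := (X * Y) ^ ((1 : ℝ) / 3) with hc
  have hXY : 0 < X * Y := mul_pos hX hY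
  have hcpos : 0 < c := Real.rpow_pos_of_pos hXY _
  have hc3 : c ^ 3 = X * Y := by
    rw [hc, ← Real.rpow_natCast, ← Real.rpow_mul hXY.le]
    norm_num
  set α : ℝ := X / c with hα
  set β : ℝ := Y / c with hβ
  have hαpos : 0 < α := div_pos hX hcpos
  have hβpos : 0 < β := div_pos hY hcpos
  have hαβ : α * β = c := by
    rw [hα, hβ]
    field_simp
    rw [← hc3]
  -- split
  set A := T.filter (fun p => α < (p.1 : ℝ)) with hA
  set B := T.filter (fun p => β < (p.2 : ℝ)) with hB
  set D := T.filter (fun p => (p.1 : ℝ) ≤ α ∧ (p.2 : ℝ) ≤ β) with hD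
  have hcov : T ⊆ A ∪ B ∪ D := by
    intro p hp
    simp only [hA, hB, hD, mem_union, mem_filter]
    by_cases h1 : α < (p.1 : ℝ)
    · exact Or.inl (Or.inl ⟨hp, h1⟩)
    · by_cases h2 : β < (p.2 : ℝ)
      · exact Or.inl (Or.inr ⟨hp, h2⟩)
      · exact Or.inr ⟨hp, not_lt.mp h1, not_lt.mp h2⟩
  have hcardA : (A.card : ℝ) ≤ c := by
    have : (A.card : ℝ) * α ≤ X := by
      calc (A.card : ℝ) * α = ∑ _p ∈ A, α := by rw [sum_const, nsmul_eq_mul]
        _ ≤ ∑ p ∈ A, (p.1 : ℝ) := by
            apply sum_le_sum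
            intro p hp
            exact (mem_filter.mp hp).2.le
        _ ≤ ∑ p ∈ T, (p.1 : ℝ) := by
            apply sum_le_sum_of_subset_of_nonneg (filter_subset _ _)
            intro p _ _
            positivity
        _ ≤ X := h1
    have h3 : X = c * α := by rw [hα]; field_simp
    rw [h3] at this
    exact le_of_mul_le_mul_right this hαpos
  have hcardB : (B.card : ℝ) ≤ c := by
    have : (B.card : ℝ) * β ≤ Y := by
      calc (B.card : ℝ) * β = ∑ _p ∈ B, β := by rw [sum_const, nsmul_eq_mul]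
        _ ≤ ∑ p ∈ B, (p.2 : ℝ) := by
            apply sum_le_sum
            intro p hp
            exact (mem_filter.mp hp).2.le
        _ ≤ ∑ p ∈ T, (p.2 : ℝ) := by
            apply sum_le_sum_of_subset_of_nonneg (filter_subset _ _)
            intro p _ _
            positivity
        _ ≤ Y := h2
    have h3 : Y = c * β := by rw [hβ]; field_simp
    rw [h3] at this
    exact le_of_mul_le_mul_right this hβpos
  have hcardD : (D.card : ℝ) ≤ c := by
    have hsub : D ⊆ (Icc 1 ⌊α⌋₊) ×ˢ (Icc 1 ⌊β⌋₊) := by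
      intro p hp
      obtain ⟨hpT, h1, h2⟩ := mem_filter.mp hp
      rw [mem_product, mem_Icc, mem_Icc]
      exact ⟨⟨(hpos p hpT).1, Nat.le_floor h1⟩, ⟨(hpos p hpT).2, Nat.le_floor h2⟩⟩
    have h4 := card_le_card hsub
    rw [card_product, Nat.card_Icc, Nat.card_Icc] at h4
    simp only [Nat.add_sub_cancel] at h4
    calc (D.card : ℝ) ≤ ((⌊α⌋₊ * ⌊β⌋₊ : ℕ) : ℝ) := by exact_mod_cast h4
      _ = (⌊α⌋₊ : ℝ) * (⌊β⌋₊ : ℝ) := by push_cast; ring
      _ ≤ α * β := by
          apply mul_le_mul (Nat.floor_le hαpos.le) (Nat.floor_le hβpos.le) (by positivity) hαpos.le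
      _ = c := hαβ
  have h5 : (T.card : ℝ) ≤ A.card + B.card + D.card := by
    have h6 := card_le_card hcov
    have h7 := (card_union_le (A ∪ B) D)
    have h8 := card_union_le A B
    have : T.card ≤ A.card + B.card + D.card := by omega
    exact_mod_cast this
  linarith

/-- Jarnik-type bound for a monotone chain of lattice points with distinct difference vectors -/
theorem chain_count (K : ℕ) (m n : ℕ → ℕ) (hm : ∀ i < K, m i < m (i + 1))
    (hn : ∀ i < K, n (i + 1) < n i)
    (hinj : ∀ i < K, ∀ j < K, m (i + 1) - m i = m (j + 1) - m j →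
      n i - n (i + 1) = n j - n (j + 1) → i = j)
    (X Y : ℝ) (hX : 0 < X) (hY : 0 < Y) (hmX : (m K : ℝ) ≤ X) (hnY : (n 0 : ℝ) ≤ Y) :
    (K : ℝ) ≤ 3 * (X * Y) ^ ((1 : ℝ) / 3) := by
  classical
  set φ : ℕ → ℕ × ℕ := fun i => (m (i + 1) - m i, n i - n (i + 1)) with hφ
  set T : Finset (ℕ × ℕ) := (range K).image φ with hT
  have hinjφ : Set.InjOn φ (range K : Set ℕ) := by
    intro i hi j hj hij
    simp only [coe_range, Set.mem_Iio] at hi hj
    simp only [hφ, Prod.mk.injEq] at hij
    exact hinj i hi j hj hij.1 hij.2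
  have hcard : T.card = K := by
    rw [hT, card_image_of_injOn hinjφ, card_range]
  have hsum1 : ∀ k ≤ K, ∑ i ∈ range k, ((m (i + 1) - m i : ℕ) : ℝ) = (m k : ℝ) - m 0 := by
    intro k hk
    induction k with
    | zero => simp
    | succ k ih =>
      rw [sum_range_succ, ih (by omega), Nat.cast_sub (hm k (by omega)).le]
      ring
  have hsum2 : ∀ k ≤ K, ∑ i ∈ range k, ((n i - n (i + 1) : ℕ) : ℝ) = (n 0 : ℝ) - n k := by
    intro k hk
    induction k with
    | zero => simp
    | succ k ih =>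
      rw [sum_range_succ, ih (by omega), Nat.cast_sub (hn k (by omega)).le]
      ring
  have := pairs_count T X Y hX hY (by
      intro p hp
      obtain ⟨i, hi, rfl⟩ := mem_image.mp hp
      have h1 := hm i (mem_range.mp hi)
      have h2 := hn i (mem_range.mp hi)
      simp only [hφ]
      omega)
    (by
      rw [hT, sum_image hinjφ]
      simp only [hφ]
      rw [hsum1 K le_rfl]
      have : (0 : ℝ) ≤ m 0 := by positivity
      linarith)
    (by
      rw [hT, sum_image hinjφ]
      simp only [hφ]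
      rw [hsum2 K le_rfl]
      have : (0 : ℝ) ≤ n K := by positivity
      linarith)
  rw [hcard] at this
  exact this

/-- the product identity behind an equality of two binomial coefficients -/
theorem choose_prod (N m a b : ℕ) (h : m + a ≤ N)
    (he : (N + b).choose m = N.choose (m + a)) :
    (∏ k ∈ range b, (N + 1 + k)) * (∏ k ∈ range a, (m + 1 + k)) =
      (∏ k ∈ range b, (N - m + 1 + k)) * (∏ k ∈ range a, (N - m - a + 1 + k)) := by
  set D := N - m with hD
  have hDa : a ≤ D := by omega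
  obtain ⟨E, hE⟩ := Nat.exists_eq_add_of_le hDa
  have hE' : D - a = E := by omega
  rw [hE']
  have h1 := Nat.choose_mul_factorial_mul_factorial (n := N + b) (k := m) (by omega)
  have h2 := Nat.choose_mul_factorial_mul_factorial (n := N) (k := m + a) h
  have e1 : N + b - m = D + b := by omega
  have e2 : N - (m + a) = E := by omega
  rw [e1] at h1
  rw [e2] at h2
  have f1 := Nat.factorial_mul_ascFactorial N b
  have f2 := Nat.factorial_mul_ascFactorial m a
  have f3 := Nat.factorial_mul_ascFactorial D b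
  have f4 := Nat.factorial_mul_ascFactorial E a
  have e3 : E + a = D := by omega
  rw [e3] at f4
  rw [Nat.ascFactorial_eq_prod_range] at f1 f2 f3 f4
  have ht : 0 < N.choose (m + a) := Nat.choose_pos h
  rw [he] at h1
  set t := N.choose (m + a)
  set P1 := ∏ k ∈ range b, (N + 1 + k)
  set P2 := ∏ k ∈ range a, (m + 1 + k)
  set P3 := ∏ k ∈ range b, (D + 1 + k)
  set P4 := ∏ k ∈ range a, (E + 1 + k)
  have g1 : t * (Nat.factorial m) * (Nat.factorial E) * (P3 * P4) =
      t * (Nat.factorial m) * (Nat.factorial E) * (P1 * P2) := by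
    calc t * (Nat.factorial m) * (Nat.factorial E) * (P3 * P4)
        = t * (Nat.factorial m) * ((Nat.factorial E * P4) * P3) := by ring
      _ = t * (Nat.factorial m) * (Nat.factorial (D + b)) := by rw [f4, f3]
      _ = Nat.factorial (N + b) := h1
      _ = Nat.factorial N * P1 := f1.symm
      _ = (t * (Nat.factorial (m + a)) * (Nat.factorial E)) * P1 := by rw [h2]
      _ = (t * (Nat.factorial m * P2) * (Nat.factorial E)) * P1 := by rw [f2]
      _ = t * (Nat.factorial m) * (Nat.factorial E) * (P1 * P2) := by ring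
  have hpos : 0 < t * (Nat.factorial m) * (Nat.factorial E) := by positivity
  exact (Nat.eq_of_mul_eq_mul_left hpos g1).symm

/-- no difference vector occurs twice on a level curve of the binomial coefficient -/
theorem choose_no_repeat (N m a b N' m' : ℕ) (ha : 1 ≤ a) (h : m + a ≤ N) (h' : m' + a ≤ N')
    (hm : m < m') (hN : N' < N)
    (he : (N + b).choose m = N.choose (m + a))
    (he' : (N' + b).choose m' = N'.choose (m' + a)) : False := by
  have p1 := choose_prod N m a b h he
  have p2 := choose_prod N' m' a b h' he'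
  have q1 : (∏ k ∈ range b, (N + 1 + k)) * (∏ k ∈ range b, (N' - m' + 1 + k)) ≤
      (∏ k ∈ range b, (N' + 1 + k)) * (∏ k ∈ range b, (N - m + 1 + k)) := by
    rw [← prod_mul_distrib, ← prod_mul_distrib]
    apply prod_le_prod'
    intro k _
    obtain ⟨D, hD⟩ := Nat.exists_eq_add_of_le (show m ≤ N by omega)
    obtain ⟨D', hD'⟩ := Nat.exists_eq_add_of_le (show m' ≤ N' by omega)
    have e1 : N - m = D := by omega
    have e2 : N' - m' = D' := by omega
    rw [e1, e2, hD, hD']
    have hDD : D' ≤ D := by omega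
    have : m * (D' + 1 + k) ≤ m' * (D + 1 + k) := Nat.mul_le_mul hm.le (by omega)
    nlinarith
  have q2 : (∏ k ∈ range a, (m + 1 + k)) * (∏ k ∈ range a, (N' - m' - a + 1 + k)) <
      (∏ k ∈ range a, (m' + 1 + k)) * (∏ k ∈ range a, (N - m - a + 1 + k)) := by
    rw [← prod_mul_distrib, ← prod_mul_distrib]
    apply prod_lt_prod_of_nonempty
    · intro k _
      positivity
    · intro k _
      apply Nat.mul_lt_mul_of_lt_of_le (by omega) (by omega) (by omega)
    · exact nonempty_range_iff.mpr (by omega)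
  set X := ∏ k ∈ range b, (N + 1 + k)
  set X' := ∏ k ∈ range b, (N' + 1 + k)
  set Z := ∏ k ∈ range b, (N - m + 1 + k)
  set Z' := ∏ k ∈ range b, (N' - m' + 1 + k)
  set Y := ∏ k ∈ range a, (m + 1 + k)
  set Y' := ∏ k ∈ range a, (m' + 1 + k)
  set W := ∏ k ∈ range a, (N - m - a + 1 + k)
  set W' := ∏ k ∈ range a, (N' - m' - a + 1 + k)
  have hXZ : 0 < X' * Z := by
    apply Nat.mul_pos
    · apply prod_pos; intro k _; omega
    · apply prod_pos; intro k _; omega
  have r1 : (X * Z') * (Y * W') < (X' * Z) * (Y' * W) :=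
    lt_of_le_of_lt (Nat.mul_le_mul_right _ q1) (Nat.mul_lt_mul_of_pos_left q2 hXZ)
  have r2 : (X * Z') * (Y * W') = (X' * Z) * (Y' * W) := by
    calc (X * Z') * (Y * W') = (X * Y) * (Z' * W') := by ring
      _ = (Z * W) * (X' * Y') := by rw [p1, p2]
      _ = (X' * Z) * (Y' * W) := by ring
  omega

/-- strict growth in the lower index on the left half -/
theorem choose_lt_right (n m m' : ℕ) (hmm : m < m') (h : 2 * m' ≤ n) :
    n.choose m < n.choose m' := by
  induction m', hmm using Nat.le_induction with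
  | base =>
    have h1 := Nat.choose_succ_right_eq n m
    have h2 : 0 < n.choose m := Nat.choose_pos (by omega)
    by_contra hcon
    have hcon : n.choose (m + 1) ≤ n.choose m := not_lt.mp hcon
    have h3 : n.choose (m + 1) * (m + 1) ≤ n.choose m * (m + 1) := Nat.mul_le_mul_right _ hcon
    have h4 : n.choose m * (m + 1) < n.choose m * (n - m) :=
      Nat.mul_lt_mul_of_pos_left (by omega) h2
    omega
  | succ k hk ih =>
    have ih := ih (by omega)
    have h1 := Nat.choose_succ_right_eq n k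
    have h2 : 0 < n.choose k := Nat.choose_pos (by omega)
    by_contra hcon
    have hcon : n.choose (k + 1) ≤ n.choose m := not_lt.mp hcon
    have hcon' : n.choose (k + 1) ≤ n.choose k := by omega
    have h3 : n.choose (k + 1) * (k + 1) ≤ n.choose k * (k + 1) := Nat.mul_le_mul_right _ hcon'
    have h4 : n.choose k * (k + 1) < n.choose k * (n - k) :=
      Nat.mul_lt_mul_of_pos_left (by omega) h2
    omega

/-- on a level curve the upper index decreases when the lower index increases -/
theorem upper_lt (n m n' m' t : ℕ) (hmm : m < m') (h' : 2 * m' ≤ n')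
    (e : n.choose m = t) (e' : n'.choose m' = t) : n' < n := by
  by_contra hcon
  have hcon : n ≤ n' := not_lt.mp hcon
  have h1 : n.choose m ≤ n'.choose m := Nat.choose_le_choose m hcon
  have h2 := choose_lt_right n' m m' hmm h'
  omega

/-- the elementary lower bound `(n/m)^m ≤ C(n,m)` -/
theorem pow_le_choose_mul (n m : ℕ) (h : m ≤ n) : n ^ m ≤ m ^ m * n.choose m := by
  have h1 : n ^ m * m.factorial ≤ m ^ m * n.descFactorial m := by
    have e1 : m.factorial = m.descFactorial m := (Nat.descFactorial_self m).symm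
    rw [e1, Nat.descFactorial_eq_prod_range, Nat.descFactorial_eq_prod_range]
    have e2 : n ^ m = ∏ _i ∈ range m, n := by rw [prod_const, card_range]
    have e3 : m ^ m = ∏ _i ∈ range m, m := by rw [prod_const, card_range]
    rw [e2, e3, ← prod_mul_distrib, ← prod_mul_distrib]
    apply prod_le_prod'
    intro i hi
    have hi := mem_range.mp hi
    rw [Nat.mul_sub, Nat.mul_sub, Nat.mul_comm n m]
    have : m * i ≤ n * i := Nat.mul_le_mul_right _ h
    omega
  rw [Nat.descFactorial_eq_factorial_mul_choose] at h1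
  have h2 : 0 < m.factorial := Nat.factorial_pos m
  have h3 : n ^ m * m.factorial ≤ (m ^ m * n.choose m) * m.factorial := by
    calc n ^ m * m.factorial ≤ m ^ m * (m.factorial * n.choose m) := h1
      _ = (m ^ m * n.choose m) * m.factorial := by ring
  exact Nat.le_of_mul_le_mul_right h3 h2

theorem log_bound (n m t : ℕ) (hm : 1 ≤ m) (h : 2 * m ≤ n) (e : n.choose m = t) :
    (m : ℝ) * (Real.log n - Real.log m) ≤ Real.log t := by
  have h1 := pow_le_choose_mul n m (by omega)
  rw [e] at h1
  have hmR : (0 : ℝ) < m := by exact_mod_cast hm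
  have hnR : (0 : ℝ) < n := by exact_mod_cast (show 0 < n by omega)
  have ht : 0 < t := by rw [← e]; exact Nat.choose_pos (by omega)
  have htR : (0 : ℝ) < t := by exact_mod_cast ht
  have h2 : ((n : ℝ)) ^ m ≤ (m : ℝ) ^ m * t := by exact_mod_cast h1
  have h3 := Real.log_le_log (by positivity) h2
  rw [Real.log_mul (by positivity) (by positivity), Real.log_pow, Real.log_pow] at h3
  linarith

/-- **Part (1)**: the number of solutions of `C(n,m) = t` with `log t ≤ B m`, `2m ≤ n`. -/
theorem region_count (B : ℝ) (hB : 0 < B) : ∃ C : ℝ, 0 < C ∧ ∀ t : ℕ, 2 ≤ t →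
    ∀ S : Finset ℕ, (∀ m ∈ S, 1 ≤ m ∧ Real.log t ≤ B * m ∧ ∃ n, 2 * m ≤ n ∧ n.choose m = t) →
      (S.card : ℝ) ≤ C * (Real.log t) ^ ((2 : ℝ) / 3) := by
  classical
  have hl2 : 0 < Real.log 2 := Real.log_pos (by norm_num)
  set c1 : ℝ := (Real.exp B / (Real.log 2) ^ 2) ^ ((1 : ℝ) / 3) with hc1
  have hc1pos : 0 < c1 := Real.rpow_pos_of_pos (by positivity) _
  set c2 : ℝ := ((Real.log 2) ^ ((2 : ℝ) / 3))⁻¹ with hc2
  have hc2pos : 0 < c2 := by
    have := Real.rpow_pos_of_pos hl2 ((2 : ℝ) / 3)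
    positivity
  refine ⟨3 * c1 + c2, by positivity, ?_⟩
  intro t ht S hS
  have htR : (2 : ℝ) ≤ t := by exact_mod_cast ht
  set L := Real.log t with hL
  have hL2 : Real.log 2 ≤ L := Real.log_le_log (by norm_num) htR
  have hLpos : 0 < L := lt_of_lt_of_le hl2 hL2
  have hLpow : 0 < L ^ ((2 : ℝ) / 3) := Real.rpow_pos_of_pos hLpos _
  rcases S.eq_empty_or_nonempty with hemp | hne
  · rw [hemp, card_empty]
    have : 0 < (3 * c1 + c2) * L ^ ((2 : ℝ) / 3) := by positivity
    simpa using this.le
  obtain ⟨K, hK⟩ : ∃ K, S.card = K + 1 := ⟨S.card - 1, by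
    have := hne.card_pos
    omega⟩
  set e := S.orderEmbOfFin hK with he
  have hemem : ∀ i, e i ∈ S := fun i => S.orderEmbOfFin_mem hK i
  have hex : ∀ m : ℕ, ∃ n : ℕ, m ∈ S → 2 * m ≤ n ∧ n.choose m = t := by
    intro m
    by_cases hm : m ∈ S
    · obtain ⟨_, _, n, h1, h2⟩ := hS m hm
      exact ⟨n, fun _ => ⟨h1, h2⟩⟩
    · exact ⟨0, fun h => absurd h hm⟩
  choose nf hnf using hex
  set mm : ℕ → ℕ := fun i => if h : i < K + 1 then e ⟨i, h⟩ else 0 with hmm
  have hmmem : ∀ i, i < K + 1 → mm i ∈ S := by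
    intro i hi
    simp only [hmm, dif_pos hi]
    exact hemem _
  have hmmlt : ∀ i j, i < j → j < K + 1 → mm i < mm j := by
    intro i j hij hj
    have hi : i < K + 1 := by omega
    simp only [hmm, dif_pos hi, dif_pos hj]
    exact e.strictMono (by simpa using hij)
  have hnlt : ∀ i j, i < j → j < K + 1 → nf (mm j) < nf (mm i) := by
    intro i j hij hj
    have hi : i < K + 1 := by omega
    have h1 := hnf (mm i) (hmmem i hi)
    have h2 := hnf (mm j) (hmmem j hj)
    exact upper_lt _ _ _ _ t (hmmlt i j hij hj) h2.1 h1.2 h2.2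
  have hkey : ∀ i j, i < j → j < K → mm (i + 1) - mm i = mm (j + 1) - mm j →
      nf (mm i) - nf (mm (i + 1)) = nf (mm j) - nf (mm (j + 1)) → False := by
    intro i j hij hj h1 h2
    have a1 := hmmlt i (i + 1) (by omega) (by omega)
    have a2 := hmmlt j (j + 1) (by omega) (by omega)
    have b1 := hnlt i (i + 1) (by omega) (by omega)
    have b2 := hnlt j (j + 1) (by omega) (by omega)
    have c1 := hmmlt i j hij (by omega)
    have c2 := hnlt (i + 1) (j + 1) (by omega) (by omega)
    obtain ⟨p1, p2⟩ := hnf (mm i) (hmmem i (by omega))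
    obtain ⟨p3, p4⟩ := hnf (mm (i + 1)) (hmmem (i + 1) (by omega))
    obtain ⟨p5, p6⟩ := hnf (mm j) (hmmem j (by omega))
    obtain ⟨p7, p8⟩ := hnf (mm (j + 1)) (hmmem (j + 1) (by omega))
    set a := mm (i + 1) - mm i with ha
    set b := nf (mm i) - nf (mm (i + 1)) with hb
    have e1 : nf (mm i) = nf (mm (i + 1)) + b := by omega
    have e2 : nf (mm j) = nf (mm (j + 1)) + b := by omega
    have e3 : mm (i + 1) = mm i + a := by omega
    have e4 : mm (j + 1) = mm j + a := by omega
    refine choose_no_repeat (nf (mm (i + 1))) (mm i) a b (nf (mm (j + 1))) (mm j) (by omega)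
      (by omega) (by omega) c1 c2 ?_ ?_
    · rw [← e1, p2, ← e3, p4]
    · rw [← e2, p6, ← e4, p8]
  -- bounds
  have hmmX : (mm K : ℝ) ≤ L / Real.log 2 := by
    obtain ⟨h1, h2, _⟩ := hS (mm K) (hmmem K (by omega))
    obtain ⟨p1, p2⟩ := hnf (mm K) (hmmem K (by omega))
    have h3 := log_bound _ _ t h1 p1 p2
    have hmpos : (0 : ℝ) < mm K := by exact_mod_cast h1
    have h4 : Real.log 2 ≤ Real.log (nf (mm K)) - Real.log (mm K) := by
      have h5 : ((2 * mm K : ℕ) : ℝ) ≤ nf (mm K) := by exact_mod_cast p1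
      push_cast at h5
      have h6 := Real.log_le_log (by positivity) h5
      rw [Real.log_mul (by norm_num) (by positivity)] at h6
      linarith
    rw [le_div_iff₀ hl2]
    calc (mm K : ℝ) * Real.log 2 ≤ (mm K : ℝ) * (Real.log (nf (mm K)) - Real.log (mm K)) :=
          mul_le_mul_of_nonneg_left h4 hmpos.le
      _ ≤ L := h3
  have hnnY : (nf (mm 0) : ℝ) ≤ Real.exp B * (L / Real.log 2) := by
    obtain ⟨h1, h2, _⟩ := hS (mm 0) (hmmem 0 (by omega))
    obtain ⟨p1, p2⟩ := hnf (mm 0) (hmmem 0 (by omega))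
    have h3 := log_bound _ _ t h1 p1 p2
    have hmpos : (0 : ℝ) < mm 0 := by exact_mod_cast h1
    have hnpos : (0 : ℝ) < nf (mm 0) := by
      have : 0 < nf (mm 0) := by omega
      exact_mod_cast this
    have h4 : Real.log (nf (mm 0)) - Real.log (mm 0) ≤ B := by
      have h5 : (mm 0 : ℝ) * (Real.log (nf (mm 0)) - Real.log (mm 0)) ≤ (mm 0 : ℝ) * B := by
        linarith
      exact le_of_mul_le_mul_left h5 hmpos
    have h6 : (nf (mm 0) : ℝ) ≤ Real.exp B * mm 0 := by
      have h7 : Real.log (nf (mm 0)) ≤ B + Real.log (mm 0) := by linarith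
      have h8 := Real.exp_le_exp.mpr h7
      rw [Real.exp_log hnpos, Real.exp_add, Real.exp_log hmpos] at h8
      exact h8
    have h7 : (mm 0 : ℝ) ≤ L / Real.log 2 := by
      have h8 : mm 0 ≤ mm K := by
        rcases Nat.eq_zero_or_pos K with h0 | h0
        · rw [h0]
        · exact (hmmlt 0 K h0 (by omega)).le
      have h9 : (mm 0 : ℝ) ≤ mm K := by exact_mod_cast h8
      linarith
    calc (nf (mm 0) : ℝ) ≤ Real.exp B * mm 0 := h6
      _ ≤ Real.exp B * (L / Real.log 2) := mul_le_mul_of_nonneg_left h7 (Real.exp_pos B).le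
  have hmain := chain_count K mm (fun i => nf (mm i))
    (fun i hi => hmmlt i (i + 1) (by omega) (by omega))
    (fun i hi => hnlt i (i + 1) (by omega) (by omega))
    (by
      intro i hi j hj h1 h2
      rcases lt_trichotomy i j with h | h | h
      · exact absurd (hkey i j h hj h1 h2) id
      · exact h
      · exact absurd (hkey j i h hi h1.symm h2.symm) id)
    (L / Real.log 2) (Real.exp B * (L / Real.log 2)) (by positivity) (by positivity) hmmX hnnY
  have hXY : (L / Real.log 2) * (Real.exp B * (L / Real.log 2)) =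
      (Real.exp B / (Real.log 2) ^ 2) * L ^ 2 := by
    field_simp
  have hpow : ((L / Real.log 2) * (Real.exp B * (L / Real.log 2))) ^ ((1 : ℝ) / 3) =
      c1 * L ^ ((2 : ℝ) / 3) := by
    rw [hXY, Real.mul_rpow (by positivity) (by positivity), hc1]
    congr 1
    rw [← Real.rpow_natCast, ← Real.rpow_mul hLpos.le]
    norm_num
  rw [hpow] at hmain
  have hone : 1 ≤ c2 * L ^ ((2 : ℝ) / 3) := by
    have h1 : (Real.log 2) ^ ((2 : ℝ) / 3) ≤ L ^ ((2 : ℝ) / 3) :=
      Real.rpow_le_rpow hl2.le hL2 (by norm_num)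
    have h2 : 0 < (Real.log 2) ^ ((2 : ℝ) / 3) := Real.rpow_pos_of_pos hl2 _
    rw [hc2, inv_mul_eq_div, le_div_iff₀ h2]
    linarith
  rw [hK]
  push_cast
  nlinarith

end H84.Sing
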